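import Pool.Agent.H24.CL.Targets
import Pool.Agent.H31.E21.RealExp

/-!
# Subcritical mean value with a real exponent on the torus (row SV of clv_modules)
-/

set_option autoImplicit false

open Finset MeasureTheory

namespace Pool.Agent.H68.CLV

open Pool.Agent.H24.CL
open Pool.Agent.H22.VM (KK Inv Uni mo bs)

theorem e_add (x y : UnitAddCircle) : e (x + y) = e x * e y := by
  unfold e
  rw [AddCircle.toCircle_add]
  push_cast
  rfl

theorem norm_e (x : UnitAddCircle) : ‖e x‖ = 1 := by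
  unfold e
  exact Circle.norm_coe _

theorem P_add {k : ℕ} (a a' : X k) (n : ℕ) : P (a + a') n = P a n + P a' n := by
  unfold P
  rw [← Finset.sum_add_distrib]
  refine Finset.sum_congr rfl fun i _ => ?_
  rw [Pi.add_apply, smul_add]

theorem e_coe (x : ℝ) : e ((x : ℝ) : UnitAddCircle) = Pool.Agent.H22.VM.e x := by
  unfold e Pool.Agent.H22.VM.e
  rw [AddCircle.toCircle_apply_mk, Circle.coe_exp]
  congr 1
  push_cast
  ring

theorem vme_add (x y : ℝ) : Pool.Agent.H22.VM.e (x + y) =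
    Pool.Agent.H22.VM.e x * Pool.Agent.H22.VM.e y := by
  unfold Pool.Agent.H22.VM.e
  rw [← Complex.exp_add]
  congr 1
  push_cast
  ring

theorem norm_vme (x : ℝ) : ‖Pool.Agent.H22.VM.e x‖ = 1 := by
  rw [← e_coe, norm_e]

theorem continuous_f {k : ℕ} (N : ℕ) : Continuous (fun a : X k => f N a) := by
  unfold f P
  refine continuous_finsetSum _ fun n _ => ?_
  have h1 : Continuous (fun a : X k => ∑ i : Fin k, (n ^ (i.val + 1)) • a i) :=
    continuous_finsetSum _ fun i _ => (continuous_apply i).nsmul _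
  have h2 : Continuous e := by
    unfold e
    exact continuous_subtype_val.comp AddCircle.continuous_toCircle
  exact h2.comp h1

/-- the point `ω / Q` of the torus -/
noncomputable def tau {k Q : ℕ} [NeZero Q] (w : Fin k → ZMod Q) : X k :=
  fun i => ZMod.toAddCircle (w i)

theorem tau_add {k Q : ℕ} [NeZero Q] (w w' : Fin k → ZMod Q) : tau (w + w') = tau w + tau w' := by
  funext i
  unfold tau
  rw [Pi.add_apply, Pi.add_apply, map_add]

theorem P_tau {k Q : ℕ} [NeZero Q] (c : Fin k → ℤ) (n : ℕ) :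
    P (tau (Q := Q) fun i => (c i : ZMod Q)) n =
      (((∑ i : Fin k, (c i : ℝ) * (n : ℝ) ^ (i.val + 1)) / (Q : ℝ) : ℝ) : UnitAddCircle) := by
  unfold P tau
  have h1 : ∀ i : Fin k, (n ^ (i.val + 1)) • (ZMod.toAddCircle ((c i : ZMod Q)) : UnitAddCircle) =
      (((c i : ℝ) * (n : ℝ) ^ (i.val + 1) / (Q : ℝ) : ℝ) : UnitAddCircle) := by
    intro i
    rw [ZMod.toAddCircle_intCast, ← AddCircle.coe_nsmul]
    congr 1
    rw [nsmul_eq_mul]
    push_cast
    ring
  rw [Finset.sum_congr rfl fun i _ => h1 i, Finset.sum_div]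
  exact (map_sum (QuotientAddGroup.mk' (AddSubgroup.zmultiples (1 : ℝ)))
    (fun i : Fin k => (c i : ℝ) * (n : ℝ) ^ (i.val + 1) / (Q : ℝ)) Finset.univ).symm

/-- invariance of the family of the phases -/
theorem inv_phase (k Q N : ℕ) [NeZero Q] (β : X k) :
    Inv k Q (fun _ : Fin k → ZMod Q => (1 : ℝ)) (range N) (fun n : ℕ => (n : ℤ))
      (fun (n : ℕ) (w : Fin k → ZMod Q) => e (P (β + tau w) n)) := by
  intro Pl hPl
  refine ⟨Equiv.addRight fun i => ((Pl.coeff (i.val + 1) : ℤ) : ZMod Q), fun _ => rfl,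
    fun _ => Pool.Agent.H22.VM.e (-((Pl.coeff 0 : ℤ) : ℝ) / (Q : ℝ)), fun _ => norm_vme _, ?_⟩
  intro n _ w
  have h1 : (Equiv.addRight (fun i : Fin k => ((Pl.coeff (i.val + 1) : ℤ) : ZMod Q))) w =
      w + fun i : Fin k => ((Pl.coeff (i.val + 1) : ℤ) : ZMod Q) := rfl
  simp only []
  rw [h1, tau_add, ← add_assoc, P_add, e_add, P_tau, e_coe, mul_comm]
  congr 1
  rw [← vme_add]
  congr 1
  have h2 : Pl.eval (n : ℤ) = Pl.coeff 0 +
      ∑ i : Fin k, Pl.coeff (i.val + 1) * (n : ℤ) ^ (i.val + 1) := by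
    rw [Polynomial.eval_eq_sum_range' (Nat.lt_succ_of_le hPl), Finset.sum_range_succ',
      Finset.sum_range, pow_zero, mul_one, add_comm]
  rw [h2]
  push_cast
  ring

theorem prob_circle : IsProbabilityMeasure (volume : Measure UnitAddCircle) :=
  ⟨UnitAddCircle.measure_univ⟩

theorem prob_X (k : ℕ) : IsProbabilityMeasure (volume : Measure (X k)) := by
  have := prob_circle
  exact inferInstanceAs (IsProbabilityMeasure (Measure.pi fun _ : Fin k => volume))

theorem pf_SV : T_SV := by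
  intro k s hk hs1 hs2
  obtain ⟨p, hp1, hp2⟩ := Nat.exists_infinite_primes (max k 32 + 1)
  have hkp : k < p := lt_of_lt_of_le (Nat.lt_succ_of_le (le_max_left k 32)) hp1
  have h32 : 32 < p := lt_of_lt_of_le (Nat.lt_succ_of_le (le_max_right k 32)) hp1
  have hKK : KK k = (KN k : ℝ) := by
    unfold KK KN
    rw [Nat.cast_div (Nat.even_mul_succ_self k).two_dvd (by norm_num)]
    push_cast
    ring
  obtain ⟨C, hC0, hC⟩ := Pool.Agent.H31.E21.uni_real k p s hk hp2 hkp h32
    (by rw [hKK]; exact hs1) (by rw [hKK]; exact hs2)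
  have hKN : (1 : ℝ) ≤ (KN k : ℝ) := by
    rw [← hKK]
    unfold KK
    have : (3 : ℝ) ≤ (k : ℝ) := by exact_mod_cast hk
    nlinarith
  have hs0 : 0 ≤ s := by linarith
  have hp0 : (0 : ℝ) < (p : ℝ) := by exact_mod_cast hp2.pos
  have hps : 0 ≤ C * (p : ℝ) ^ s := by positivity
  refine ⟨C * (p : ℝ) ^ s + 1, by linarith, fun N hN => ?_⟩
  have hN0 : (0 : ℝ) < (N : ℝ) := by exact_mod_cast hN
  -- the exponent
  obtain ⟨B, hB1, hB2⟩ : ∃ B : ℕ, N ≤ p ^ B ∧ p ^ B ≤ p * N := by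
    refine ⟨Nat.clog p N, Nat.le_pow_clog hp2.one_lt N, ?_⟩
    rcases Nat.lt_or_ge 1 N with h | h
    · have h1 := Nat.pow_pred_clog_lt_self hp2.one_lt h
      have h2 : 0 < Nat.clog p N := Nat.clog_pos hp2.one_lt h
      calc p ^ Nat.clog p N = p * p ^ (Nat.clog p N).pred := by
            rw [← pow_succ', Nat.pred_eq_sub_one, Nat.sub_add_cancel h2]
        _ ≤ p * N := Nat.mul_le_mul_left _ h1.le
    · have h1 : N = 1 := le_antisymm h hN
      subst h1
      simp [hp2.one_lt.le]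
  set Q : ℕ := p ^ (k * B) with hQ
  have : NeZero Q := ⟨(pow_pos hp2.pos _).ne'⟩
  have hkey : ∀ β : X k, ∑ w : Fin k → ZMod Q, ‖f N (β + tau w)‖ ^ (2 * s) ≤
      C * ((p : ℝ) ^ B) ^ s * (Fintype.card (Fin k → ZMod Q) : ℝ) := by
    intro β
    have h1 := hC B ℕ (Fin k → ZMod Q) (fun _ => (1 : ℝ)) (range N) (fun n : ℕ => (n : ℤ))
      (fun (n : ℕ) (w : Fin k → ZMod Q) => e (P (β + tau w) n)) (fun _ => zero_le_one)
      (inv_phase k Q N β) (fun _ _ _ => (norm_e _).le)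
      (fun a _ b _ h => Int.ofNat.inj h)
      (fun n hn => ⟨Int.natCast_nonneg n, by
        have h2 := mem_range.1 hn
        have h3 : n < p ^ B := lt_of_lt_of_le h2 hB1
        exact_mod_cast h3⟩)
    have h2 : mo (fun _ => (1 : ℝ)) (fun (n : ℕ) (w : Fin k → ZMod Q) => e (P (β + tau w) n)) s
        (range N) = ∑ w : Fin k → ZMod Q, ‖f N (β + tau w)‖ ^ (2 * s) := by
      unfold mo
      refine Finset.sum_congr rfl fun w _ => ?_
      rw [one_mul]
      rfl
    rw [h2] at h1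
    refine h1.trans_eq ?_
    rw [Finset.sum_const, Finset.card_univ, nsmul_eq_mul, mul_one]
  have hcont : Continuous (fun a : X k => ‖f N a‖ ^ (2 * s)) :=
    (continuous_f N).norm.rpow_const fun _ => Or.inr (by positivity)
  have hint : ∀ g : X k, Integrable (fun a : X k => ‖f N (a + g)‖ ^ (2 * s)) := fun g =>
    (hcont.comp (continuous_add_const g)).integrable_of_hasCompactSupport
      (HasCompactSupport.of_compactSpace _)
  have h3 : ∫ β : X k, ∑ w : Fin k → ZMod Q, ‖f N (β + tau w)‖ ^ (2 * s) =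
      (Fintype.card (Fin k → ZMod Q) : ℝ) * ∫ a : X k, ‖f N a‖ ^ (2 * s) := by
    rw [integral_finsetSum _ fun w _ => hint (tau w)]
    have h4 : ∀ w : Fin k → ZMod Q, ∫ β : X k, ‖f N (β + tau w)‖ ^ (2 * s) =
        ∫ a : X k, ‖f N a‖ ^ (2 * s) := fun w =>
      integral_add_right_eq_self (fun a : X k => ‖f N a‖ ^ (2 * s)) (tau w)
    rw [Finset.sum_congr rfl fun w _ => h4 w, Finset.sum_const, Finset.card_univ, nsmul_eq_mul]
  have h5 : ∫ β : X k, ∑ w : Fin k → ZMod Q, ‖f N (β + tau w)‖ ^ (2 * s) ≤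
      C * ((p : ℝ) ^ B) ^ s * (Fintype.card (Fin k → ZMod Q) : ℝ) := by
    have h6 : Integrable (fun β : X k => ∑ w : Fin k → ZMod Q, ‖f N (β + tau w)‖ ^ (2 * s)) :=
      integrable_finsetSum _ fun w _ => hint (tau w)
    have := prob_X k
    refine (integral_mono h6 (integrable_const _) hkey).trans_eq ?_
    rw [integral_const, probReal_univ, one_smul]
  have hcard : (0 : ℝ) < (Fintype.card (Fin k → ZMod Q) : ℝ) := by
    exact_mod_cast Fintype.card_pos
  rw [h3, mul_comm] at h5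
  have h7 : ∫ a : X k, ‖f N a‖ ^ (2 * s) ≤ C * ((p : ℝ) ^ B) ^ s :=
    le_of_mul_le_mul_right h5 hcard
  refine h7.trans ?_
  have h8 : ((p : ℝ) ^ B) ^ s ≤ ((p : ℝ) * N) ^ s :=
    Real.rpow_le_rpow (by positivity) (by exact_mod_cast hB2) hs0
  calc C * ((p : ℝ) ^ B) ^ s ≤ C * ((p : ℝ) * N) ^ s := mul_le_mul_of_nonneg_left h8 hC0
    _ = C * (p : ℝ) ^ s * (N : ℝ) ^ s := by
      rw [Real.mul_rpow hp0.le hN0.le, mul_assoc]
    _ ≤ (C * (p : ℝ) ^ s + 1) * (N : ℝ) ^ s :=
      mul_le_mul_of_nonneg_right (by linarith) (by positivity)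

end Pool.Agent.H68.CLV
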