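import Pool.Agent.H68.CLV.SV

/-!
# The tail of the normalised exponential sum (row TA of clv_modules)
-/

set_option autoImplicit false

open Finset MeasureTheory

namespace Pool.Agent.H68.CLV

open Pool.Agent.H24.CL

theorem pf_TA (hSV : T_SV) (_hEX : T_EX) : T_TA := by
  intro k θ hk hθ0 hθ1
  obtain ⟨C, hC1, hC⟩ := hSV k ((KN k : ℝ) - θ) hk (by linarith) (by linarith)
  refine ⟨C, hC1, ?_⟩
  intro N t hN ht
  set s : ℝ := (KN k : ℝ) - θ with hs
  have hK6 : 6 ≤ KN k := by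
    unfold KN
    have h1 : 3 * 4 ≤ k * (k + 1) := Nat.mul_le_mul hk (by omega)
    omega
  have hK : (6 : ℝ) ≤ (KN k : ℝ) := by exact_mod_cast hK6
  have hs0 : 0 < s := by rw [hs]; linarith
  have hN0 : (0 : ℝ) < (N : ℝ) := by exact_mod_cast hN
  have hcont : Continuous (fun a : X k => ‖f N a‖ ^ (2 * s)) :=
    (continuous_f N).norm.rpow_const fun _ => Or.inr (by positivity)
  have hint : Integrable (fun a : X k => ‖f N a‖ ^ (2 * s)) :=
    hcont.integrable_of_hasCompactSupport (HasCompactSupport.of_compactSpace _)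
  have hP := prob_X k
  have h1 : (t * N) ^ (2 * s) * volume.real {a : X k | (t * N) ^ (2 * s) ≤ ‖f N a‖ ^ (2 * s)} ≤
      ∫ a : X k, ‖f N a‖ ^ (2 * s) :=
    mul_meas_ge_le_integral_of_nonneg (Filter.Eventually.of_forall fun a => by positivity) hint _
  have h2 : {a : X k | t ≤ ‖u N a‖} ⊆
      {a : X k | (t * N) ^ (2 * s) ≤ ‖f N a‖ ^ (2 * s)} := by
    intro a ha
    have h3 : t ≤ ‖f N a / (N : ℂ)‖ := ha
    rw [norm_div, Complex.norm_natCast, le_div_iff₀ hN0] at h3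
    exact Real.rpow_le_rpow (by positivity) h3 (by positivity)
  have h3 : volume.real {a : X k | t ≤ ‖u N a‖} ≤
      volume.real {a : X k | (t * N) ^ (2 * s) ≤ ‖f N a‖ ^ (2 * s)} :=
    measureReal_mono h2 (measure_ne_top _ _)
  have h4 : (t * N) ^ (2 * s) * volume.real {a : X k | t ≤ ‖u N a‖} ≤ C * (N : ℝ) ^ s :=
    (mul_le_mul_of_nonneg_left h3 (by positivity)).trans (h1.trans (hC N hN))
  have h5 : (N : ℝ) ^ (KN k) * t ^ (2 * KN k) =
      (t * N) ^ (2 * s) * ((N : ℝ) ^ ((KN k : ℝ) - 2 * s) * t ^ (2 * θ)) := by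
    rw [Real.mul_rpow ht.le hN0.le, ← Real.rpow_natCast (N : ℝ), ← Real.rpow_natCast t]
    have h6 : (N : ℝ) ^ ((KN k : ℕ) : ℝ) = (N : ℝ) ^ (2 * s) * (N : ℝ) ^ ((KN k : ℝ) - 2 * s) := by
      rw [← Real.rpow_add hN0]
      congr 1
      ring
    have h7 : t ^ ((2 * KN k : ℕ) : ℝ) = t ^ (2 * s) * t ^ (2 * θ) := by
      rw [← Real.rpow_add ht]
      congr 1
      rw [hs]
      push_cast
      ring
    rw [h6, h7]
    ring
  have h8 : ((N : ℝ) * t ^ 2) ^ θ = (N : ℝ) ^ s * ((N : ℝ) ^ ((KN k : ℝ) - 2 * s) * t ^ (2 * θ)) := by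
    rw [Real.mul_rpow hN0.le (by positivity), ← mul_assoc, ← Real.rpow_add hN0,
      ← Real.rpow_natCast t 2, ← Real.rpow_mul ht.le]
    congr 2
    rw [hs]
    ring
  calc (N : ℝ) ^ (KN k) * t ^ (2 * KN k) * volume.real {a : X k | t ≤ ‖u N a‖}
      = ((t * N) ^ (2 * s) * volume.real {a : X k | t ≤ ‖u N a‖}) *
        ((N : ℝ) ^ ((KN k : ℝ) - 2 * s) * t ^ (2 * θ)) := by
        rw [h5]
        ring
    _ ≤ (C * (N : ℝ) ^ s) * ((N : ℝ) ^ ((KN k : ℝ) - 2 * s) * t ^ (2 * θ)) :=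
        mul_le_mul_of_nonneg_right h4 (by positivity)
    _ = C * ((N : ℝ) * t ^ 2) ^ θ := by
        rw [h8]
        ring

end Pool.Agent.H68.CLV
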